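import Pool.Agent.Helper69.TPF.St3

/-!
# Project TPF, module CRR: corrections
-/

set_option autoImplicit false

open scoped commutatorElement

namespace Pool.Agent.Helper15.TPF

open Pool.Agent.Helper69.TPF

private lemma crr_gen {g n m : ℕ} {t : Fin g → Fin 3} {l : Fin 3}
    {a : FreeGroup (Fin g) →* FreeGroup {i // t i = l}} {α x : Fin g → FreeGroup (Fin g)}
    (hnm : n ≤ m) (hα : ∀ s, a (α s) = 1) (hx : ∀ s, a (x s) = tgt t l s)
    (hν : ∀ ν, a ν = 1 → ν ∈ Subgroup.normalClosure (Set.range α) ⊔ lev (FreeGroup (Fin g)) m)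
    (hl : ∀ s, t s = l → α s ∈ ⁅a.ker, a.ker⁆ ⊔ lev (FreeGroup (Fin g)) n) :
    GenMod (⁅a.ker, a.ker⁆ ⊔ lev (FreeGroup (Fin g)) n) fun s => if t s = l then x s else α s := by
  apply genMod_of_le
  intro K hK hCL
  have hC : ⁅a.ker, a.ker⁆ ≤ K := le_sup_left.trans hCL
  have hL : lev (FreeGroup (Fin g)) n ≤ K := le_sup_right.trans hCL
  have h1 : K.map a = ⊤ := by
    rw [← top_le_iff, ← FreeGroup.closure_range_of, Subgroup.closure_le]
    rintro _ ⟨⟨s, hs⟩, rfl⟩
    have h2 := hK s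
    rw [if_pos hs] at h2
    refine ⟨x s, h2, ?_⟩
    rw [hx s]
    simp [tgt, hs]
  have h2 : ∀ z, ∃ w ∈ K, a w = a z := by
    intro z
    have h3 : a z ∈ K.map a := h1 ▸ Subgroup.mem_top _
    obtain ⟨w, hw, hwz⟩ := h3
    exact ⟨w, hw, hwz⟩
  have hM : (K ⊓ a.ker).Normal := by
    refine ⟨fun μ hμ z => ?_⟩
    obtain ⟨w, hw, hwz⟩ := h2 z
    refine ⟨?_, a.normal_ker.conj_mem μ hμ.2 z⟩
    have hk : w⁻¹ * z ∈ a.ker := by
      rw [MonoidHom.mem_ker, map_mul, map_inv, hwz, inv_mul_cancel]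
    have h3 : ⁅w⁻¹ * z, μ⁆ ∈ K := hC (Subgroup.commutator_mem_commutator hk hμ.2)
    have h4 : z * μ * z⁻¹ = w * (⁅w⁻¹ * z, μ⁆ * μ) * w⁻¹ := by
      rw [commutatorElement_def]
      group
    rw [h4]
    exact K.mul_mem (K.mul_mem hw (K.mul_mem h3 hμ.1)) (K.inv_mem hw)
  have h3 : Set.range α ⊆ (K ⊓ a.ker : Subgroup (FreeGroup (Fin g))) := by
    rintro _ ⟨s, rfl⟩
    refine ⟨?_, hα s⟩
    by_cases hs : t s = l
    · exact hCL (hl s hs)
    · have h4 := hK s
      rwa [if_neg hs] at h4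
  have h4 : Subgroup.normalClosure (Set.range α) ≤ K :=
    (Subgroup.normalClosure_le_normal h3).trans inf_le_left
  have h5 : a.ker ≤ K := fun ν hn => (sup_le h4 ((lev_anti _ hnm).trans hL)) (hν ν hn)
  rw [Subgroup.eq_top_iff']
  intro z
  obtain ⟨w, hw, hwz⟩ := h2 z
  have hk : w⁻¹ * z ∈ a.ker := by
    rw [MonoidHom.mem_ker, map_mul, map_inv, hwz, inv_mul_cancel]
  have h6 := K.mul_mem hw (h5 hk)
  rwa [mul_inv_cancel_left] at h6

/-- **CRR**. -/
theorem cCRR (gal : St_GAL) : St_CRR := by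
  intro g n m t l a α x hnm hα hx hν hl
  obtain ⟨c, hc, hgen⟩ := gal g n ⁅a.ker, a.ker⁆ (fun s => if t s = l then x s else α s)
    (crr_gen hnm hα hx hν hl)
  refine ⟨fun s => if t s = l then α s else α s * c s, fun s => if t s = l then x s * c s else x s,
    fun s => ?_, fun s => ?_, ?_⟩
  · dsimp only
    split_ifs
    · rw [inv_mul_cancel]
      exact Subgroup.one_mem _
    · rw [inv_mul_cancel_left]
      exact hc s
  · dsimp only
    split_ifs
    · rw [inv_mul_cancel_left]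
      exact hc s
    · rw [inv_mul_cancel]
      exact Subgroup.one_mem _
  · have he : (fun s => if t s = l then (fun s => if t s = l then x s * c s else x s) s
        else (fun s => if t s = l then α s else α s * c s) s) =
        fun s => (if t s = l then x s else α s) * c s := by
      funext s
      by_cases hs : t s = l <;> simp [hs]
    rw [he]
    exact hgen

end Pool.Agent.Helper15.TPF
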