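import Pool.Agent.Helper69.TPF.St1

/-!
# Project TPF, module GEN: generating lifts
-/

set_option autoImplicit false

open scoped commutatorElement

namespace Pool.Agent.Helper15.TPF

open Pool.Agent.Helper69.TPF Classical

section

variable {α β : Type} [Fintype α] [Fintype β] [PartialOrder β]

private lemma sum_fib (P : α → Prop) (f : α → β) (K : β) :
    Nat.card {y // P y ∧ f y ≤ K} =
      ∑ L ∈ Finset.univ.filter (fun L => L ≤ K), Nat.card {y // P y ∧ f y = L} := by
  simp only [Nat.card_eq_fintype_card, Fintype.card_subtype]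
  rw [Finset.card_eq_sum_card_fiberwise (f := f) (t := Finset.univ.filter (fun L => L ≤ K))]
  · apply Finset.sum_congr rfl
    intro L hL
    congr 1
    ext y
    simp only [Finset.mem_filter, Finset.mem_univ, true_and] at hL ⊢
    constructor
    · rintro ⟨⟨h1, _⟩, h2⟩
      exact ⟨h1, h2⟩
    · rintro ⟨h1, h2⟩
      exact ⟨⟨h1, h2 ▸ hL⟩, h2⟩
  · intro y hy
    simp only [Finset.coe_filter, Finset.mem_univ, true_and, Set.mem_setOf_eq] at hy ⊢
    exact hy.2

private lemma invert (P P' : α → Prop) (f : α → β)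
    (h : ∀ K, Nat.card {y // P y ∧ f y ≤ K} = Nat.card {y // P' y ∧ f y ≤ K}) (K : β) :
    Nat.card {y // P y ∧ f y = K} = Nat.card {y // P' y ∧ f y = K} := by
  induction K using WellFoundedLT.induction with
  | ind K ih =>
    have h1 := h K
    rw [sum_fib, sum_fib] at h1
    have h2 : (Finset.univ.filter (fun L : β => L ≤ K)) =
        insert K (Finset.univ.filter (fun L : β => L < K)) := by
      ext L
      simp only [Finset.mem_filter, Finset.mem_univ, true_and, Finset.mem_insert]
      exact le_iff_eq_or_lt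
    have h3 : K ∉ (Finset.univ.filter (fun L : β => L < K)) := by simp
    rw [h2, Finset.sum_insert h3, Finset.sum_insert h3] at h1
    have h4 : ∑ L ∈ Finset.univ.filter (fun L : β => L < K), Nat.card {y // P y ∧ f y = L} =
        ∑ L ∈ Finset.univ.filter (fun L : β => L < K), Nat.card {y // P' y ∧ f y = L} := by
      apply Finset.sum_congr rfl
      intro L hL
      exact ih L (Finset.mem_filter.1 hL).2
    omega

end

section

variable {E G : Type} [Group E] [Group G]

private lemma Rel_sub {g : ℕ} {K : Subgroup E} (z : Fin g × Bool → K) :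
    ((Rel z : K) : E) = Rel fun i => (z i : E) := Rel_map K.subtype z

private lemma card_le_eq (tco : St_TCO) [Finite E] [Finite G] (π : E →* G) {g : ℕ}
    (t t' : Fin g × Bool → G) (ht : Gen t) (ht' : Gen t')
    (hs : SameClass (Nat.card E * Nat.card G) t t') (x : E) (K : Subgroup E) :
    Nat.card {y : Fin g × Bool → E // ((∀ i, π (y i) = t i) ∧ Rel y = x) ∧
        Subgroup.closure (Set.range y) ≤ K} =
      Nat.card {y : Fin g × Bool → E // ((∀ i, π (y i) = t' i) ∧ Rel y = x) ∧
        Subgroup.closure (Set.range y) ≤ K} := by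
  by_cases hx : x ∈ K
  · have key : ∀ u : Fin g × Bool → G,
        Nat.card {y : Fin g × Bool → E // ((∀ i, π (y i) = u i) ∧ Rel y = x) ∧
          Subgroup.closure (Set.range y) ≤ K} =
        Nat.card {y : Fin g × Bool → K // (∀ i, (π.comp K.subtype) (y i) = u i) ∧
          Rel y = ⟨x, hx⟩} := by
      intro u
      refine Nat.card_congr
        { toFun := fun y => ⟨fun i => ⟨y.1 i, y.2.2 (Subgroup.subset_closure ⟨i, rfl⟩)⟩,
            fun i => y.2.1.1 i, ?_⟩
          invFun := fun z => ⟨fun i => (z.1 i : E), ⟨fun i => z.2.1 i, ?_⟩, ?_⟩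
          left_inv := fun y => rfl
          right_inv := fun z => rfl }
      · apply Subtype.ext
        rw [Rel_sub]
        exact y.2.1.2
      · rw [← Rel_sub, z.2.2]
      · rw [Subgroup.closure_le]
        rintro _ ⟨i, rfl⟩
        exact (z.1 i).2
    rw [key, key]
    apply tco K G (π.comp K.subtype) g t t' ht ht'
    intro Γ _ _ p hp hc hB s s' h1 h2
    refine hs Γ p hp hc (hB.trans (Nat.mul_le_mul_right _ ?_)) s s' h1 h2
    exact Nat.card_le_card_of_injective _ Subtype.val_injective
  · have key : ∀ u : Fin g × Bool → G,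
        Nat.card {y : Fin g × Bool → E // ((∀ i, π (y i) = u i) ∧ Rel y = x) ∧
          Subgroup.closure (Set.range y) ≤ K} = 0 := by
      intro u
      have : IsEmpty {y : Fin g × Bool → E // ((∀ i, π (y i) = u i) ∧ Rel y = x) ∧
          Subgroup.closure (Set.range y) ≤ K} := by
        refine ⟨fun y => hx ?_⟩
        have h1 : ∀ i, y.1 i ∈ K := fun i => y.2.2 (Subgroup.subset_closure ⟨i, rfl⟩)
        have h2 := Rel_sub (K := K) (fun i => ⟨y.1 i, h1 i⟩)
        rw [← y.2.1.2]
        change _ = Rel y.1 at h2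
        rw [← h2]
        exact Subtype.property _
      exact Nat.card_of_isEmpty
    rw [key, key]

end

/-- **GEN**. -/
theorem cGEN (tco : St_TCO) : St_GEN := by
  intro E G _ _ _ _ π g t t' ht ht' hs x y' h1 h2 h3
  haveI : Fintype E := Fintype.ofFinite E
  haveI : Fintype (Subgroup E) := Fintype.ofFinite _
  have h4 := invert (fun y : Fin g × Bool → E => (∀ i, π (y i) = t i) ∧ Rel y = x)
    (fun y : Fin g × Bool → E => (∀ i, π (y i) = t' i) ∧ Rel y = x)
    (fun y => Subgroup.closure (Set.range y))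
    (fun K => card_le_eq tco π t t' ht ht' hs x K) ⊤
  have h5 : 0 < Nat.card {y : Fin g × Bool → E // ((∀ i, π (y i) = t' i) ∧ Rel y = x) ∧
      Subgroup.closure (Set.range y) = ⊤} := by
    rw [Nat.card_pos_iff]
    exact ⟨⟨⟨y', ⟨h1, h2⟩, h3⟩⟩, inferInstance⟩
  rw [← h4, Nat.card_pos_iff] at h5
  obtain ⟨⟨y, ⟨h6, h7⟩, h8⟩⟩ := h5.1
  exact ⟨y, h6, h7, h8⟩

end Pool.Agent.Helper15.TPF
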